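import Pool.Agent.H.MP_b40933.D

namespace Pool.Agent.Results.MP_b40933_gt.Counter
open Set Filter Topology

/-- w-Delta spaces: a sequence of open covers such that `s n ∈ st(x, 𝒢 n)` forces a cluster point. -/
def WD (X : Type) [TopologicalSpace X] : Prop :=
  ∃ 𝒢 : ℕ → Set (Set X), (∀ n, (∀ G ∈ 𝒢 n, IsOpen G) ∧ ⋃₀ 𝒢 n = univ) ∧
    ∀ (x : X) (s : ℕ → X), (∀ n, ∃ G ∈ 𝒢 n, x ∈ G ∧ s n ∈ G) → ∃ y, MapClusterPt y atTop s

theorem result : ∃ (X Y : Type) (_ : TopologicalSpace X) (_ : TopologicalSpace Y) (f : X → Y),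
    T35Space X ∧ T35Space Y ∧ WD X ∧ Continuous f ∧ IsClosedMap f ∧ Function.Surjective f ∧
      (∀ y, IsCompact (f ⁻¹' {y})) ∧ ¬ WD Y :=
  Pool.Agent.H.MP_b40933.main

end Pool.Agent.Results.MP_b40933_gt.Counter
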